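import Pool.Agent.helper74.VD.SpecI
import Pool.Agent.helper80.VD.SpecF

/-!
# Project VD, row ACNF: confinement and bounds of the flow for bounded time

From GCF, GDB, GLP, GUN. GLP is stated for `nrm ≤ 3/2`; we use the scaling of GUN with the factor `2`.
-/

set_option autoImplicit false

open scoped ContDiff Topology InnerProductSpace

namespace Pool.Agent.VD

noncomputable section

variable {d : ℕ}

lemma ACNF_in (G : V d → V d →L[ℝ] V d) (p : P d) (h : Ham G p ≤ 2) : ⟪IG G p.1 p.2, p.2⟫_ℝ ≤ 4 := by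
  unfold Ham at h
  linarith

lemma ACNF_nrm (G : V d → V d →L[ℝ] V d) (p : P d) (h : Ham G p ≤ 2) : nrm G p ≤ 2 := by
  unfold nrm
  have h1 := ACNF_in G p h
  calc Real.sqrt ⟪IG G p.1 p.2, p.2⟫_ℝ ≤ Real.sqrt (2 ^ 2) := Real.sqrt_le_sqrt (by linarith)
    _ = 2 := Real.sqrt_sq (by norm_num)

/-- half the momentum -/
def ACNF_h (p : P d) : P d := (p.1, (1 / 2 : ℝ) • p.2)

lemma ACNF_h_nrm (G : V d → V d →L[ℝ] V d) (p : P d) (h : Ham G p ≤ 2) : nrm G (ACNF_h p) ≤ 3 / 2 := by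
  unfold nrm ACNF_h
  have h1 := ACNF_in G p h
  show Real.sqrt ⟪IG G p.1 ((1 / 2 : ℝ) • p.2), (1 / 2 : ℝ) • p.2⟫_ℝ ≤ 3 / 2
  rw [map_smul, real_inner_smul_left, real_inner_smul_right]
  calc Real.sqrt (1 / 2 * (1 / 2 * ⟪IG G p.1 p.2, p.2⟫_ℝ)) ≤ Real.sqrt (1 ^ 2) := Real.sqrt_le_sqrt (by linarith)
    _ = 1 := Real.sqrt_sq (by norm_num)
    _ ≤ 3 / 2 := by norm_num

lemma ACNF_h_dist (p q : P d) : ‖ACNF_h q - ACNF_h p‖ ≤ ‖q - p‖ := by
  unfold ACNF_h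
  rw [Prod.norm_def, Prod.norm_def]
  refine max_le_max (le_of_eq rfl) ?_
  show ‖(1 / 2 : ℝ) • q.2 - (1 / 2 : ℝ) • p.2‖ ≤ ‖q.2 - p.2‖
  rw [← smul_sub, norm_smul]
  have h1 := norm_nonneg (q.2 - p.2)
  have h2 : ‖(1 / 2 : ℝ)‖ = 1 / 2 := by norm_num
  rw [h2]
  linarith

lemma ACNF_sc (Φ : ℝ → P d → P d) (hsc : ∀ (t l : ℝ) (x ξ : V d), Φ t (x, l • ξ) = ((Φ (l * t) (x, ξ)).1, l • (Φ (l * t) (x, ξ)).2)) (t : ℝ) (p : P d) :
    Φ t p = ((Φ (2 * t) (ACNF_h p)).1, (2 : ℝ) • (Φ (2 * t) (ACNF_h p)).2) := by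
  have h1 := hsc t 2 p.1 ((1 / 2 : ℝ) • p.2)
  rw [smul_smul] at h1
  have h2 : (2 : ℝ) * (1 / 2) = 1 := by norm_num
  rw [h2, one_smul] at h1
  exact h1

lemma ACNF_two (a b : P d) : ‖((a.1, (2 : ℝ) • a.2) : P d) - (b.1, (2 : ℝ) • b.2)‖ ≤ 2 * ‖a - b‖ := by
  rw [Prod.norm_def]
  have h1 : ‖a.1 - b.1‖ ≤ ‖a - b‖ := norm_fst_le (a - b)
  have h2 : ‖a.2 - b.2‖ ≤ ‖a - b‖ := norm_snd_le (a - b)
  have h3 := norm_nonneg (a - b)
  refine max_le ?_ ?_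
  · show ‖a.1 - b.1‖ ≤ _
    linarith
  · show ‖(2 : ℝ) • a.2 - (2 : ℝ) • b.2‖ ≤ _
    rw [← smul_sub, norm_smul]
    have h4 : ‖(2 : ℝ)‖ = 2 := by norm_num
    rw [h4]
    linarith

theorem ACNF_proof (hGCF : GCF_stmt) (hGDB : GDB_stmt) (hGLP : GLP_stmt) (hGUN : GUN_stmt) : ACNF_stmt := by
  intro d Γ _ _ K k B r t0 hFd
  obtain ⟨m, hm⟩ := exists_nat_ge r
  obtain ⟨m', hmm', h1⟩ := hGCF d Γ K k B hFd m t0
  obtain ⟨C1, h2⟩ := hGDB d Γ K k B hFd m 1 t0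
  obtain ⟨c, C2, hc, hC2, h3⟩ := hGLP d Γ K k B hFd m (2 * t0)
  have hm'0 : (0 : ℝ) ≤ m' := Nat.cast_nonneg m'
  have hq0 : 0 ≤ 2 * (m' : ℝ) / c := by positivity
  refine ⟨1 + m' + |C1| + 4 * C2 + 2 * m' / c, by linarith [abs_nonneg C1], ?_⟩
  intro G Φ hOK p t hp hH ht
  have hpm : ‖p.1‖ ≤ m := le_trans hp hm
  have hn := ACNF_nrm G p hH
  obtain ⟨-, -, -, hsc⟩ := hGUN d G Φ hOK.cls.met hOK.flow
  obtain ⟨g1, g2⟩ := h1 G Φ hOK.cls hOK.flow p t hpm hn ht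
  have hph : ‖(ACNF_h p).1‖ ≤ m := hpm
  have hnh := ACNF_h_nrm G p hH
  have ht2 : |2 * t| ≤ 2 * t0 := by
    rw [abs_mul, abs_two]
    linarith
  have ht00 : 0 ≤ t0 := le_trans (abs_nonneg t) ht
  have ht20 : |(0 : ℝ)| ≤ 2 * t0 := by
    rw [abs_zero]
    linarith
  refine ⟨by linarith [abs_nonneg C1], by linarith [abs_nonneg C1], ?_, ?_, ?_⟩
  · have g3 := (h2 G Φ hOK.cls hOK.flow p t hpm hn ht 1 le_rfl).1
    rw [norm_iteratedFDeriv_one] at g3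
    linarith [le_abs_self C1]
  · intro q hq hHq
    have hqm : ‖q.1‖ ≤ m := le_trans hq hm
    have hnq := ACNF_nrm G q hHq
    obtain ⟨g3, g4⟩ := h1 G Φ hOK.cls hOK.flow q t hqm hnq ht
    have hd0 : 0 ≤ dist p q := dist_nonneg
    have hA : (2 * (m' : ℝ) / c) * dist p q ≤ (1 + m' + |C1| + 4 * C2 + 2 * m' / c) * dist p q :=
      mul_le_mul_of_nonneg_right (by linarith [abs_nonneg C1]) hd0
    have hB : (4 * C2) * dist p q ≤ (1 + m' + |C1| + 4 * C2 + 2 * m' / c) * dist p q :=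
      mul_le_mul_of_nonneg_right (by linarith [abs_nonneg C1]) hd0
    rcases le_total c (dist p q) with hfar | hnear
    · refine le_trans ?_ hA
      have h4 : dist (Φ t p) (Φ t q) ≤ 2 * m' := by
        rw [dist_eq_norm, Prod.norm_def]
        refine max_le ?_ ?_
        · show ‖(Φ t p).1 - (Φ t q).1‖ ≤ _
          linarith [norm_sub_le (Φ t p).1 (Φ t q).1]
        · show ‖(Φ t p).2 - (Φ t q).2‖ ≤ _
          linarith [norm_sub_le (Φ t p).2 (Φ t q).2]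
      refine le_trans h4 ?_
      rw [div_mul_eq_mul_div, le_div_iff₀ hc]
      exact mul_le_mul_of_nonneg_left hfar (by positivity)
    · refine le_trans ?_ hB
      have hqp : ‖q - p‖ ≤ c := by
        rw [← dist_eq_norm, dist_comm]
        exact hnear
      have h4 := (h3 G Φ hOK.cls hOK.flow (ACNF_h p) (ACNF_h q) 0 (2 * t) hph hnh (le_trans (ACNF_h_dist p q) hqp) ht2 ht20).1
      rw [dist_eq_norm, norm_sub_rev, ACNF_sc Φ hsc t p, ACNF_sc Φ hsc t q]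
      refine le_trans (ACNF_two _ _) ?_
      have h5 := ACNF_h_dist p q
      have h6 : dist p q = ‖q - p‖ := by rw [dist_comm, dist_eq_norm]
      rw [h6]
      have h7 : C2 * ‖ACNF_h q - ACNF_h p‖ ≤ C2 * ‖q - p‖ := mul_le_mul_of_nonneg_left h5 (by linarith)
      have h8 : 0 ≤ C2 * ‖q - p‖ := mul_nonneg (by linarith) (norm_nonneg _)
      linarith
  · have h4 := (h3 G Φ hOK.cls hOK.flow (ACNF_h p) (ACNF_h p) 0 (2 * t) hph hnh (by rw [sub_self, norm_zero]; exact hc.le) ht2 ht20).2.1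
    have h5 : dist (Φ t p) p = ‖Φ t p - Φ 0 p‖ := by rw [hOK.flow.zero, dist_eq_norm]
    rw [h5, ACNF_sc Φ hsc t p, ACNF_sc Φ hsc 0 p, mul_zero]
    refine le_trans (ACNF_two _ _) ?_
    rw [sub_zero, abs_mul, abs_two] at h4
    have h6 : (4 * C2) * |t| ≤ (1 + m' + |C1| + 4 * C2 + 2 * m' / c) * |t| :=
      mul_le_mul_of_nonneg_right (by linarith [abs_nonneg C1]) (abs_nonneg t)
    linarith

end

end Pool.Agent.VD
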