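import Pool.Agent.helper74.VD.SpecI
import Pool.Agent.helper80.VD.SpecF
import Pool.Agent.helper96.VD.EHB
import Pool.Agent.helper40.VD.EHD

/-!
# Project VD, row AHLD: the half density formula and uniform bounds

The bounds: families `f G : V d → E` (`G` in the class) with bounded derivatives of all orders on a ball form an algebra (bilinear maps, derivatives, compositions
`F ∘ G` with `F` smooth on the operators of positive determinant: the values of `G` on the ball are in a fixed compact set of such operators).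
-/

set_option autoImplicit false

open scoped ContDiff Topology InnerProductSpace ComplexConjugate
open MeasureTheory Filter Set

namespace Pool.Agent.VD

noncomputable section

/-! ## 1. The algebra of uniformly bounded families -/

/-- the class -/
def AHLD_cl (d : ℕ) (B : ℕ → ℕ → ℝ) : Set (V d → V d →L[ℝ] V d) :=
  {G | IsMetric G ∧ (∀ (m : ℕ) (x u : V d), ‖x‖ ≤ m → ‖u‖ ^ 2 ≤ B m 0 * ⟪G x u, u⟫_ℝ) ∧ ∀ (m n : ℕ) (x : V d), ‖x‖ ≤ m → ‖iteratedFDeriv ℝ n G x‖ ≤ B m n}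

/-- uniformly bounded families -/
structure AHLD_UB {d : ℕ} (B : ℕ → ℕ → ℝ) (m0 : ℕ) {E : Type} [NormedAddCommGroup E] [NormedSpace ℝ E] (f : (V d → V d →L[ℝ] V d) → V d → E) : Prop where
  smooth : ∀ G ∈ AHLD_cl d B, ContDiff ℝ ∞ (f G)
  bd : ∀ m : ℕ, ∃ C : ℝ, ∀ G ∈ AHLD_cl d B, ∀ x : V d, ‖x‖ ≤ m0 → ‖iteratedFDeriv ℝ m (f G) x‖ ≤ C

section alg

variable {d : ℕ} {B : ℕ → ℕ → ℝ} {m0 : ℕ} {E F H : Type} [NormedAddCommGroup E] [NormedSpace ℝ E] [NormedAddCommGroup F] [NormedSpace ℝ F]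
  [NormedAddCommGroup H] [NormedSpace ℝ H]

lemma AHLD_le (m : ℕ) : (m : WithTop ℕ∞) ≤ ∞ := by
  exact_mod_cast le_top

lemma AHLD_bilin (L : E →L[ℝ] F →L[ℝ] H) {f : (V d → V d →L[ℝ] V d) → V d → E} {g : (V d → V d →L[ℝ] V d) → V d → F}
    (hf : AHLD_UB B m0 f) (hg : AHLD_UB B m0 g) : AHLD_UB B m0 (fun G y => L (f G y) (g G y)) := by
  constructor
  · intro G hG
    exact (L.contDiff.comp (hf.smooth G hG)).clm_apply (hg.smooth G hG)
  · intro m
    choose Cf hCf using hf.bd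
    choose Cg hCg using hg.bd
    refine ⟨‖L‖ * ∑ i ∈ Finset.range (m + 1), (m.choose i : ℝ) * |Cf i| * |Cg (m - i)|, ?_⟩
    intro G hG x hx
    refine le_trans (L.norm_iteratedFDeriv_le_of_bilinear (hf.smooth G hG) (hg.smooth G hG) x (AHLD_le m)) ?_
    refine mul_le_mul_of_nonneg_left (Finset.sum_le_sum (fun i _ => ?_)) L.opNorm_nonneg
    have h1 : ‖iteratedFDeriv ℝ i (f G) x‖ ≤ |Cf i| := le_trans (hCf i G hG x hx) (le_abs_self _)
    have h2 : ‖iteratedFDeriv ℝ (m - i) (g G) x‖ ≤ |Cg (m - i)| := le_trans (hCg (m - i) G hG x hx) (le_abs_self _)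
    exact mul_le_mul (mul_le_mul_of_nonneg_left h1 (Nat.cast_nonneg _)) h2 (norm_nonneg _) (by positivity)

lemma AHLD_clm (L : E →L[ℝ] F) {f : (V d → V d →L[ℝ] V d) → V d → E} (hf : AHLD_UB B m0 f) : AHLD_UB B m0 (fun G y => L (f G y)) := by
  constructor
  · intro G hG
    exact L.contDiff.comp (hf.smooth G hG)
  · intro m
    obtain ⟨C, hC⟩ := hf.bd m
    refine ⟨‖L‖ * C, ?_⟩
    intro G hG x hx
    have h1 : iteratedFDeriv ℝ m (fun y => L (f G y)) x = L.compContinuousMultilinearMap (iteratedFDeriv ℝ m (f G) x) :=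
      L.iteratedFDeriv_comp_left ((hf.smooth G hG).contDiffAt (x := x)) (AHLD_le m)
    rw [h1]
    exact le_trans (L.norm_compContinuousMultilinearMap_le _) (mul_le_mul_of_nonneg_left (hC G hG x hx) (norm_nonneg _))

lemma AHLD_fderiv {f : (V d → V d →L[ℝ] V d) → V d → E} (hf : AHLD_UB B m0 f) : AHLD_UB B m0 (fun G y => fderiv ℝ (f G) y) := by
  constructor
  · intro G hG
    exact (hf.smooth G hG).fderiv_right (m := ∞) (by exact_mod_cast le_top)
  · intro m
    obtain ⟨C, hC⟩ := hf.bd (m + 1)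
    refine ⟨C, ?_⟩
    intro G hG x hx
    have h1 : ‖iteratedFDeriv ℝ m (fun y => fderiv ℝ (f G) y) x‖ = ‖iteratedFDeriv ℝ (m + 1) (f G) x‖ := norm_iteratedFDeriv_fderiv
    rw [h1]
    exact hC G hG x hx

lemma AHLD_add {f g : (V d → V d →L[ℝ] V d) → V d → E} (hf : AHLD_UB B m0 f) (hg : AHLD_UB B m0 g) : AHLD_UB B m0 (fun G y => f G y + g G y) := by
  constructor
  · intro G hG
    exact (hf.smooth G hG).add (hg.smooth G hG)
  · intro m
    obtain ⟨C, hC⟩ := hf.bd m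
    obtain ⟨C', hC'⟩ := hg.bd m
    refine ⟨C + C', ?_⟩
    intro G hG x hx
    have h1 : iteratedFDeriv ℝ m (fun y => f G y + g G y) x = iteratedFDeriv ℝ m (f G) x + iteratedFDeriv ℝ m (g G) x :=
      iteratedFDeriv_add_apply (((hf.smooth G hG).contDiffAt (x := x)).of_le (AHLD_le m)) (((hg.smooth G hG).contDiffAt (x := x)).of_le (AHLD_le m))
    rw [h1]
    exact le_trans (norm_add_le _ _) (add_le_add (hC G hG x hx) (hC' G hG x hx))

lemma AHLD_zero : AHLD_UB B m0 (fun (_ : V d → V d →L[ℝ] V d) (_ : V d) => (0 : E)) := by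
  constructor
  · intro G _
    exact contDiff_const
  · intro m
    refine ⟨0, ?_⟩
    intro G _ x _
    have h1 : iteratedFDeriv ℝ m (fun _ : V d => (0 : E)) x = 0 := by
      rw [iteratedFDeriv_fun_zero]
      rfl
    rw [h1, norm_zero]

lemma AHLD_sum {ι : Type} (s : Finset ι) {f : ι → (V d → V d →L[ℝ] V d) → V d → E} (hf : ∀ i ∈ s, AHLD_UB B m0 (f i)) :
    AHLD_UB B m0 (fun G y => ∑ i ∈ s, f i G y) := by
  classical
  induction s using Finset.induction_on with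
  | empty =>
    simp only [Finset.sum_empty]
    exact AHLD_zero
  | insert a s ha ih =>
    simp only [Finset.sum_insert ha]
    exact AHLD_add (hf a (Finset.mem_insert_self a s)) (ih (fun i hi => hf i (Finset.mem_insert_of_mem hi)))

end alg

/-! ## 2. Composition with functions of the metric -/

/-- a compact set of operators -/
def AHLD_K (d : ℕ) (b : ℝ) : Set (V d →L[ℝ] V d) := {A | ‖A‖ ≤ b ∧ (∀ u : V d, ‖u‖ ^ 2 ≤ b * ⟪A u, u⟫_ℝ) ∧ ∀ u v : V d, ⟪A u, v⟫_ℝ = ⟪u, A v⟫_ℝ}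

lemma AHLD_K_compact (d : ℕ) (b : ℝ) : IsCompact (AHLD_K d b) := by
  refine Metric.isCompact_of_isClosed_isBounded ?_ ?_
  · have h1 : AHLD_K d b = {A : V d →L[ℝ] V d | ‖A‖ ≤ b} ∩ ((⋂ u : V d, {A : V d →L[ℝ] V d | ‖u‖ ^ 2 ≤ b * ⟪A u, u⟫_ℝ}) ∩
        ⋂ u : V d, ⋂ v : V d, {A : V d →L[ℝ] V d | ⟪A u, v⟫_ℝ = ⟪u, A v⟫_ℝ}) := by
      ext A
      simp only [AHLD_K, mem_ofPred_eq, mem_inter_iff, mem_iInter]
    rw [h1]
    have hap : ∀ u : V d, Continuous (fun A : V d →L[ℝ] V d => A u) := fun u => (ContinuousLinearMap.apply ℝ (V d) u).continuous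
    refine (isClosed_le continuous_norm continuous_const).inter ((isClosed_iInter fun u => ?_).inter (isClosed_iInter fun u => isClosed_iInter fun v => ?_))
    · exact isClosed_le continuous_const (continuous_const.mul ((hap u).inner continuous_const))
    · exact isClosed_eq ((hap u).inner continuous_const) (continuous_const.inner (hap v))
  · refine (Metric.isBounded_closedBall (x := (0 : V d →L[ℝ] V d)) (r := b)).subset ?_
    intro A hA
    rw [Metric.mem_closedBall, dist_zero_right]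
    exact hA.1

/-- the operators of positive determinant -/
def AHLD_U (d : ℕ) : Set (V d →L[ℝ] V d) := {A | 0 < A.det}

lemma AHLD_U_open (d : ℕ) : IsOpen (AHLD_U d) := isOpen_lt continuous_const (EHB_det d).continuous

lemma AHLD_det {d : ℕ} {G : V d → V d →L[ℝ] V d} (hG : IsMetric G) (x : V d) : 0 < (G x).det := EHD_detpos d (G x) (hG.symm x) (hG.pos x)

lemma AHLD_KU (d : ℕ) (b : ℝ) : AHLD_K d b ⊆ AHLD_U d := by
  intro A hA
  refine EHD_detpos d A hA.2.2 ?_
  intro u hu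
  have h1 := hA.2.1 u
  have h2 : 0 < ‖u‖ ^ 2 := by positivity
  have h3 : 0 ≤ b := le_trans (norm_nonneg _) hA.1
  by_contra h4
  have h5 : b * ⟪A u, u⟫_ℝ ≤ 0 := mul_nonpos_of_nonneg_of_nonpos h3 (not_lt.mp h4)
  linarith

lemma AHLD_comp {d : ℕ} {B : ℕ → ℕ → ℝ} {m0 : ℕ} {E : Type} [NormedAddCommGroup E] [NormedSpace ℝ E] (F : (V d →L[ℝ] V d) → E)
    (hF : ContDiffOn ℝ ∞ F (AHLD_U d)) : AHLD_UB B m0 (fun (G : V d → V d →L[ℝ] V d) (y : V d) => F (G y)) := by
  have hud : UniqueDiffOn ℝ (AHLD_U d) := (AHLD_U_open d).uniqueDiffOn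
  constructor
  · intro G hG
    rw [← contDiffOn_univ]
    exact hF.comp (contDiffOn_univ.mpr hG.1.smooth) (fun x _ => AHLD_det hG.1 x)
  · intro m
    set b : ℝ := max 1 (B m0 0) with hb
    have h1 : ∀ i : ℕ, ∃ C : ℝ, ∀ A ∈ AHLD_K d b, ‖iteratedFDerivWithin ℝ i F (AHLD_U d) A‖ ≤ C := by
      intro i
      exact (AHLD_K_compact d b).exists_bound_of_continuousOn ((hF.continuousOn_iteratedFDerivWithin (AHLD_le i) hud).mono (AHLD_KU d b))
    choose C hC using h1
    set C0 : ℝ := ∑ i ∈ Finset.range (m + 1), |C i| with hC0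
    set D : ℝ := 1 + ∑ i ∈ Finset.range (m + 1), |B m0 i| with hD
    have hD1 : 1 ≤ D := by
      have : 0 ≤ ∑ i ∈ Finset.range (m + 1), |B m0 i| := Finset.sum_nonneg (fun _ _ => abs_nonneg _)
      linarith
    refine ⟨m.factorial * C0 * D ^ m, ?_⟩
    intro G hG x hx
    have hGK : G x ∈ AHLD_K d b := by
      refine ⟨?_, ?_, hG.1.symm x⟩
      · have h2 := hG.2.2 m0 0 x hx
        rw [norm_iteratedFDeriv_zero] at h2
        exact le_trans h2 (le_max_right _ _)
      · intro u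
        have h2 := hG.2.1 m0 x u hx
        have h3 : 0 ≤ ⟪G x u, u⟫_ℝ := by
          by_cases hu : u = 0
          · rw [hu, inner_zero_right]
          · exact (hG.1.pos x u hu).le
        exact le_trans h2 (mul_le_mul_of_nonneg_right (le_max_right _ _) h3)
    have h2 := norm_iteratedFDerivWithin_comp_le (g := F) (f := G) (n := m) (N := ∞) (t := AHLD_U d) (s := univ) hF
      (contDiffOn_univ.mpr hG.1.smooth) (AHLD_le m) hud uniqueDiffOn_univ (fun y _ => AHLD_det hG.1 y) (mem_univ x) (C := C0) (D := D) (by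
        intro i hi
        refine le_trans (hC i (G x) hGK) (le_trans (le_abs_self _) ?_)
        exact Finset.single_le_sum (f := fun i => |C i|) (fun _ _ => abs_nonneg _) (Finset.mem_range.mpr (by omega))) (by
        intro i hi1 hi2
        rw [iteratedFDerivWithin_univ]
        refine le_trans (hG.2.2 m0 i x hx) (le_trans (le_abs_self _) ?_)
        have h3 : |B m0 i| ≤ ∑ i ∈ Finset.range (m + 1), |B m0 i| :=
          Finset.single_le_sum (f := fun i => |B m0 i|) (fun _ _ => abs_nonneg _) (Finset.mem_range.mpr (by omega))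
        have h4 : D ≤ D ^ i := le_self_pow₀ hD1 (by omega)
        linarith)
    rw [iteratedFDerivWithin_univ] at h2
    exact h2

/-! ## 3. The half density formula -/

section formula

variable {d : ℕ} (G : V d → V d →L[ℝ] V d)

/-- the divergence form operator without density -/
def AHLD_A (φ : V d → ℂ) (x : V d) : ℂ :=
  ∑ i : Fin d, fderiv ℝ (fun y => fderiv ℝ φ y (IG G y (EuclideanSpace.single i 1))) x (EuclideanSpace.single i 1)

/-- the square root of the density -/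
def AHLD_s (x : V d) : ℂ := ((Real.sqrt (dens G x) : ℝ) : ℂ)

/-- its inverse -/
def AHLD_w (x : V d) : ℂ := (((Real.sqrt (dens G x))⁻¹ : ℝ) : ℂ)


variable {G}

lemma AHLD_dpos (hG : IsMetric G) (x : V d) : 0 < dens G x := Real.sqrt_pos.mpr (AHLD_det hG x)

lemma AHLD_dsm (hG : IsMetric G) : ContDiff ℝ ∞ (dens G) := by
  have h1 : ContDiff ℝ ∞ (fun x => (G x).det) := (EHB_det d).comp hG.smooth
  exact h1.sqrt (fun x => (AHLD_det hG x).ne')

lemma AHLD_rsm (hG : IsMetric G) : ContDiff ℝ ∞ (fun x => Real.sqrt (dens G x)) := (AHLD_dsm hG).sqrt (fun x => (AHLD_dpos hG x).ne')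

lemma AHLD_spos (hG : IsMetric G) (x : V d) : 0 < Real.sqrt (dens G x) := Real.sqrt_pos.mpr (AHLD_dpos hG x)

lemma AHLD_ssm (hG : IsMetric G) : ContDiff ℝ ∞ (AHLD_s G) := Complex.ofRealCLM.contDiff.comp (AHLD_rsm hG)

lemma AHLD_wsm (hG : IsMetric G) : ContDiff ℝ ∞ (AHLD_w G) := Complex.ofRealCLM.contDiff.comp ((AHLD_rsm hG).inv (fun x => (AHLD_spos hG x).ne'))

lemma AHLD_sw (hG : IsMetric G) (x : V d) : AHLD_s G x * AHLD_w G x = 1 := by
  unfold AHLD_s AHLD_w
  rw [← Complex.ofReal_mul, mul_inv_cancel₀ (AHLD_spos hG x).ne', Complex.ofReal_one]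

lemma AHLD_ss (hG : IsMetric G) (x : V d) : ((dens G x : ℝ) : ℂ) = AHLD_s G x * AHLD_s G x := by
  unfold AHLD_s
  rw [← Complex.ofReal_mul, Real.mul_self_sqrt (AHLD_dpos hG x).le]

lemma AHLD_one (hG : IsMetric G) (u : V d → ℂ) (y v : V d) (hu : DifferentiableAt ℝ u y) :
    ((dens G y : ℝ) : ℂ) * fderiv ℝ (fun z => u z * AHLD_w G z) y v = AHLD_s G y * fderiv ℝ u y v - u y * fderiv ℝ (AHLD_s G) y v := by
  have hw : DifferentiableAt ℝ (AHLD_w G) y := (AHLD_wsm hG).differentiable (by simp) y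
  have hs : DifferentiableAt ℝ (AHLD_s G) y := (AHLD_ssm hG).differentiable (by simp) y
  have h1 : fderiv ℝ (fun z => u z * AHLD_w G z) y = u y • fderiv ℝ (AHLD_w G) y + AHLD_w G y • fderiv ℝ u y := fderiv_fun_mul hu hw
  have h2 : fderiv ℝ (fun z => AHLD_s G z * AHLD_w G z) y = AHLD_s G y • fderiv ℝ (AHLD_w G) y + AHLD_w G y • fderiv ℝ (AHLD_s G) y := fderiv_fun_mul hs hw
  have h3 : (fun z => AHLD_s G z * AHLD_w G z) = fun _ => (1 : ℂ) := funext (AHLD_sw hG)
  rw [h3] at h2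
  have h4 : fderiv ℝ (fun _ : V d => (1 : ℂ)) y = 0 := (hasFDerivAt_const (1 : ℂ) y).fderiv
  rw [h4] at h2
  have h5 : 0 = AHLD_s G y * fderiv ℝ (AHLD_w G) y v + AHLD_w G y * fderiv ℝ (AHLD_s G) y v := by
    have := congrArg (fun L : V d →L[ℝ] ℂ => L v) h2
    exact this
  have h6 : fderiv ℝ (fun z => u z * AHLD_w G z) y v = u y * fderiv ℝ (AHLD_w G) y v + AHLD_w G y * fderiv ℝ u y v := by
    rw [h1]
    rfl
  rw [h6, AHLD_ss hG]
  have h7 := AHLD_sw hG y
  linear_combination (-(u y * AHLD_s G y)) * h5 + (AHLD_s G y * fderiv ℝ u y v - u y * fderiv ℝ (AHLD_s G) y v) * h7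

lemma AHLD_exp (L : V d →L[ℝ] ℂ) (v : V d) : L v = ∑ j : Fin d, ((v j : ℝ) : ℂ) * L (EuclideanSpace.single j 1) := by
  have h1 : v = ∑ j : Fin d, v j • EuclideanSpace.single j (1 : ℝ) := by
    have h2 := (EuclideanSpace.basisFun (Fin d) ℝ).sum_repr v
    simp only [EuclideanSpace.basisFun_repr, EuclideanSpace.basisFun_apply] at h2
    exact h2.symm
  have h3 : L v = L (∑ j : Fin d, v j • EuclideanSpace.single j (1 : ℝ)) := congrArg L h1
  rw [h3, map_sum]
  refine Finset.sum_congr rfl (fun j _ => ?_)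
  rw [map_smul, Complex.real_smul]

lemma AHLD_sym (A : V d →L[ℝ] V d) (hA : ∀ u v : V d, ⟪A u, v⟫_ℝ = ⟪u, A v⟫_ℝ) (L1 L2 : V d →L[ℝ] ℂ) :
    ∑ i : Fin d, L1 (A (EuclideanSpace.single i 1)) * L2 (EuclideanSpace.single i 1) = ∑ i : Fin d, L2 (A (EuclideanSpace.single i 1)) * L1 (EuclideanSpace.single i 1) := by
  have h1 : ∀ i j : Fin d, (A (EuclideanSpace.single i 1)) j = (A (EuclideanSpace.single j 1)) i := by
    intro i j
    have h2 := hA (EuclideanSpace.single i 1) (EuclideanSpace.single j 1)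
    rw [EuclideanSpace.inner_single_right, EuclideanSpace.inner_single_left] at h2
    simpa using h2
  have h2 : ∀ (L L' : V d →L[ℝ] ℂ), ∑ i : Fin d, L (A (EuclideanSpace.single i 1)) * L' (EuclideanSpace.single i 1) =
      ∑ i : Fin d, ∑ j : Fin d, (((A (EuclideanSpace.single i 1)) j : ℝ) : ℂ) * L (EuclideanSpace.single j 1) * L' (EuclideanSpace.single i 1) := by
    intro L L'
    refine Finset.sum_congr rfl (fun i _ => ?_)
    rw [AHLD_exp L (A (EuclideanSpace.single i 1)), Finset.sum_mul]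
  rw [h2, h2, Finset.sum_comm]
  refine Finset.sum_congr rfl (fun i _ => Finset.sum_congr rfl (fun j _ => ?_))
  rw [h1 j i]
  ring

lemma AHLD_form (hG : IsMetric G) (hI : ContDiff ℝ ∞ (IG G)) (hIs : ∀ x u v : V d, ⟪IG G x u, v⟫_ℝ = ⟪u, IG G x v⟫_ℝ) (u : V d → ℂ) (hu : ContDiff ℝ 2 u) (x : V d) :
    lap G (fun y => u y * AHLD_w G y) x = (((dens G x)⁻¹ : ℝ) : ℂ) * (AHLD_s G x * AHLD_A G u x - u x * AHLD_A G (AHLD_s G) x) := by
  have hud : Differentiable ℝ u := hu.differentiable (by norm_num)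
  have hsd : Differentiable ℝ (AHLD_s G) := (AHLD_ssm hG).differentiable (by simp)
  have hu1 : Differentiable ℝ (fderiv ℝ u) := (hu.fderiv_right (m := 1) (by norm_num)).differentiable (by norm_num)
  have hs1 : Differentiable ℝ (fderiv ℝ (AHLD_s G)) := (((AHLD_ssm hG).of_le (AHLD_le 2)).fderiv_right (m := 1) (by norm_num)).differentiable (by norm_num)
  have hId : ∀ i : Fin d, Differentiable ℝ (fun y => IG G y (EuclideanSpace.single i 1)) := fun i y =>
    ((hI.differentiable (by simp)) y).clm_apply (differentiableAt_const _)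
  have ha : ∀ i : Fin d, DifferentiableAt ℝ (fun y => fderiv ℝ u y (IG G y (EuclideanSpace.single i 1))) x := fun i => (hu1 x).clm_apply (hId i x)
  have hc : ∀ i : Fin d, DifferentiableAt ℝ (fun y => fderiv ℝ (AHLD_s G) y (IG G y (EuclideanSpace.single i 1))) x := fun i => (hs1 x).clm_apply (hId i x)
  have h1 : ∀ i : Fin d, (fun y => ((dens G y : ℝ) : ℂ) * fderiv ℝ (fun z => u z * AHLD_w G z) y ((G y).inverse (EuclideanSpace.single i 1))) =
      fun y => AHLD_s G y * fderiv ℝ u y (IG G y (EuclideanSpace.single i 1)) - u y * fderiv ℝ (AHLD_s G) y (IG G y (EuclideanSpace.single i 1)) := by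
    intro i
    funext y
    exact AHLD_one hG u y _ (hud y)
  have h2 : ∀ i : Fin d, fderiv ℝ (fun y => AHLD_s G y * fderiv ℝ u y (IG G y (EuclideanSpace.single i 1)) - u y * fderiv ℝ (AHLD_s G) y (IG G y (EuclideanSpace.single i 1))) x
        (EuclideanSpace.single i 1) =
      (AHLD_s G x * fderiv ℝ (fun y => fderiv ℝ u y (IG G y (EuclideanSpace.single i 1))) x (EuclideanSpace.single i 1) -
        u x * fderiv ℝ (fun y => fderiv ℝ (AHLD_s G) y (IG G y (EuclideanSpace.single i 1))) x (EuclideanSpace.single i 1)) +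
      (fderiv ℝ u x (IG G x (EuclideanSpace.single i 1)) * fderiv ℝ (AHLD_s G) x (EuclideanSpace.single i 1) -
        fderiv ℝ (AHLD_s G) x (IG G x (EuclideanSpace.single i 1)) * fderiv ℝ u x (EuclideanSpace.single i 1)) := by
    intro i
    have h3 := (((hsd x).hasFDerivAt.fun_mul (ha i).hasFDerivAt).fun_sub ((hud x).hasFDerivAt.fun_mul (hc i).hasFDerivAt)).fderiv
    rw [h3]
    simp only [ContinuousLinearMap.sub_apply, ContinuousLinearMap.add_apply, ContinuousLinearMap.smul_apply, smul_eq_mul]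
    ring
  unfold lap
  congr 1
  calc ∑ i : Fin d, fderiv ℝ (fun y => ((dens G y : ℝ) : ℂ) * fderiv ℝ (fun z => u z * AHLD_w G z) y ((G y).inverse (EuclideanSpace.single i 1))) x (EuclideanSpace.single i 1)
      = ∑ i : Fin d, ((AHLD_s G x * fderiv ℝ (fun y => fderiv ℝ u y (IG G y (EuclideanSpace.single i 1))) x (EuclideanSpace.single i 1) -
        u x * fderiv ℝ (fun y => fderiv ℝ (AHLD_s G) y (IG G y (EuclideanSpace.single i 1))) x (EuclideanSpace.single i 1)) +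
      (fderiv ℝ u x (IG G x (EuclideanSpace.single i 1)) * fderiv ℝ (AHLD_s G) x (EuclideanSpace.single i 1) -
        fderiv ℝ (AHLD_s G) x (IG G x (EuclideanSpace.single i 1)) * fderiv ℝ u x (EuclideanSpace.single i 1))) := by
        refine Finset.sum_congr rfl (fun i _ => ?_)
        rw [h1 i, h2 i]
    _ = AHLD_s G x * AHLD_A G u x - u x * AHLD_A G (AHLD_s G) x := by
        have h4 := AHLD_sym (IG G x) (hIs x) (fderiv ℝ u x) (fderiv ℝ (AHLD_s G) x)
        rw [Finset.sum_add_distrib, Finset.sum_sub_distrib, Finset.sum_sub_distrib, h4, sub_self, add_zero, ← Finset.mul_sum, ← Finset.mul_sum]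
        rfl

lemma AHLD_VG (hG : IsMetric G) (hI : ContDiff ℝ ∞ (IG G)) (hIs : ∀ x u v : V d, ⟪IG G x u, v⟫_ℝ = ⟪u, IG G x v⟫_ℝ) (x : V d) :
    VG G x = AHLD_s G x * ((((dens G x)⁻¹ : ℝ) : ℂ) * AHLD_A G (AHLD_s G) x) := by
  have h1 := AHLD_form hG hI hIs (fun _ => (1 : ℂ)) contDiff_const x
  have h2 : (fun y => (1 : ℂ) * AHLD_w G y) = AHLD_w G := by
    funext y
    rw [one_mul]
  have h3 : AHLD_A G (fun _ => (1 : ℂ)) x = 0 := by
    unfold AHLD_A
    refine Finset.sum_eq_zero (fun i _ => ?_)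
    have h4 : (fun y : V d => fderiv ℝ (fun _ : V d => (1 : ℂ)) y (IG G y (EuclideanSpace.single i 1))) = fun _ => (0 : ℂ) := by
      funext y
      rw [(hasFDerivAt_const (1 : ℂ) y).fderiv]
      rfl
    rw [h4, (hasFDerivAt_const (0 : ℂ) x).fderiv]
    rfl
  rw [h2, h3] at h1
  show -(AHLD_s G x) * lap G (AHLD_w G) x = _
  rw [h1]
  ring

end formula

/-! ## 4. The row -/

theorem AHLD_proof (hGIN : GIN_stmt) (hGUI : GUI_stmt) (hGNR : GNR_stmt) : AHLD_stmt := by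
  intro d Γ _ _ K k B r n
  obtain ⟨m0, hm0⟩ := exists_nat_ge r
  -- the families
  have hdetU : ContDiffOn ℝ ∞ (fun A : V d →L[ℝ] V d => Real.sqrt A.det) (AHLD_U d) := fun A hA =>
    ((EHB_det d).contDiffAt.sqrt (ne_of_gt hA)).contDiffWithinAt
  have hne1 : ∀ A ∈ AHLD_U d, Real.sqrt A.det ≠ 0 := fun A hA => (Real.sqrt_pos.mpr hA).ne'
  have hrU : ContDiffOn ℝ ∞ (fun A : V d →L[ℝ] V d => Real.sqrt (Real.sqrt A.det)) (AHLD_U d) := hdetU.sqrt hne1
  have hne2 : ∀ A ∈ AHLD_U d, Real.sqrt (Real.sqrt A.det) ≠ 0 := fun A hA => (Real.sqrt_pos.mpr (Real.sqrt_pos.mpr hA)).ne'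
  have u1 : AHLD_UB B m0 (fun (G : V d → V d →L[ℝ] V d) (y : V d) => dens G y) := AHLD_comp _ hdetU
  have u2 : AHLD_UB B m0 (fun (G : V d → V d →L[ℝ] V d) (y : V d) => (Real.sqrt (dens G y))⁻¹) := AHLD_comp _ (hrU.inv hne2)
  have u3 : AHLD_UB B m0 (fun (G : V d → V d →L[ℝ] V d) (y : V d) => Real.sqrt (dens G y)) := AHLD_comp _ hrU
  have u4 : AHLD_UB B m0 (fun (G : V d → V d →L[ℝ] V d) (y : V d) => (dens G y)⁻¹) := AHLD_comp _ (hdetU.inv hne1)
  have u5 : AHLD_UB B m0 (fun (G : V d → V d →L[ℝ] V d) (y : V d) => IG G y) := by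
    constructor
    · intro G hG
      exact (hGIN d G hG.1).2.2.2.1
    · intro m
      obtain ⟨C, hC⟩ := hGUI d B m0 m
      exact ⟨C, fun G hG x hx => hC G hG.1 hG.2.1 hG.2.2 x hx⟩
  have u1c : AHLD_UB B m0 (fun (G : V d → V d →L[ℝ] V d) (y : V d) => ((dens G y : ℝ) : ℂ)) := AHLD_clm Complex.ofRealCLM u1
  have u2c : AHLD_UB B m0 (fun (G : V d → V d →L[ℝ] V d) (y : V d) => (((Real.sqrt (dens G y))⁻¹ : ℝ) : ℂ)) := AHLD_clm Complex.ofRealCLM u2
  have u3c : AHLD_UB B m0 (fun (G : V d → V d →L[ℝ] V d) (y : V d) => ((Real.sqrt (dens G y) : ℝ) : ℂ)) := AHLD_clm Complex.ofRealCLM u3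
  have u4c : AHLD_UB B m0 (fun (G : V d → V d →L[ℝ] V d) (y : V d) => (((dens G y)⁻¹ : ℝ) : ℂ)) := AHLD_clm Complex.ofRealCLM u4
  have u6 : ∀ i : Fin d, AHLD_UB B m0 (fun (G : V d → V d →L[ℝ] V d) (y : V d) => (G y).inverse (EuclideanSpace.single i 1)) := fun i =>
    AHLD_clm (ContinuousLinearMap.apply ℝ (V d) (EuclideanSpace.single i 1)) u5
  have u7 : ∀ i : Fin d, AHLD_UB B m0 (fun (G : V d → V d →L[ℝ] V d) (y : V d) =>
      fderiv ℝ (fun z => (((Real.sqrt (dens G z))⁻¹ : ℝ) : ℂ)) y ((G y).inverse (EuclideanSpace.single i 1))) := fun i =>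
    AHLD_bilin (ContinuousLinearMap.id ℝ (V d →L[ℝ] ℂ)) (AHLD_fderiv u2c) (u6 i)
  have u8 : ∀ i : Fin d, AHLD_UB B m0 (fun (G : V d → V d →L[ℝ] V d) (y : V d) =>
      ((dens G y : ℝ) : ℂ) * fderiv ℝ (fun z => (((Real.sqrt (dens G z))⁻¹ : ℝ) : ℂ)) y ((G y).inverse (EuclideanSpace.single i 1))) := fun i =>
    AHLD_bilin (ContinuousLinearMap.mul ℝ ℂ) u1c (u7 i)
  have u9 : ∀ i : Fin d, AHLD_UB B m0 (fun (G : V d → V d →L[ℝ] V d) (x : V d) =>
      fderiv ℝ (fun y => ((dens G y : ℝ) : ℂ) * fderiv ℝ (fun z => (((Real.sqrt (dens G z))⁻¹ : ℝ) : ℂ)) y ((G y).inverse (EuclideanSpace.single i 1))) x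
        (EuclideanSpace.single i 1)) := fun i =>
    AHLD_clm (ContinuousLinearMap.apply ℝ ℂ (EuclideanSpace.single i 1)) (AHLD_fderiv (u8 i))
  have u10 : AHLD_UB B m0 (fun (G : V d → V d →L[ℝ] V d) (x : V d) => lap G (fun z => (((Real.sqrt (dens G z))⁻¹ : ℝ) : ℂ)) x) :=
    AHLD_bilin (ContinuousLinearMap.mul ℝ ℂ) u4c (AHLD_sum Finset.univ (fun i _ => u9 i))
  have u11 : AHLD_UB B m0 (fun (G : V d → V d →L[ℝ] V d) (x : V d) => VG G x) :=
    AHLD_bilin (ContinuousLinearMap.mul ℝ ℂ) (AHLD_clm (-(ContinuousLinearMap.id ℝ ℂ)) u3c) u10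
  choose C1 hC1 using u1.bd
  choose C2 hC2 using u2.bd
  choose C3 hC3 using u11.bd
  choose C4 hC4 using u5.bd
  obtain ⟨C5, hC5⟩ := u4.bd 0
  obtain ⟨C6, hC61, hC6⟩ := hGNR d B m0
  set S : ℝ := ∑ m ∈ Finset.range (n + 1), (|C1 m| + |C2 m| + |C3 m| + |C4 m|) with hS
  have hS0 : 0 ≤ S := Finset.sum_nonneg (fun _ _ => by positivity)
  have hSm : ∀ m ≤ n, |C1 m| + |C2 m| + |C3 m| + |C4 m| ≤ S := fun m hm =>
    Finset.single_le_sum (f := fun m => |C1 m| + |C2 m| + |C3 m| + |C4 m|) (fun _ _ => by positivity) (Finset.mem_range.mpr (by omega))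
  refine ⟨S + |C5| + C6, by linarith [abs_nonneg C5], ?_⟩
  intro G hFd hCls
  have hG : G ∈ AHLD_cl d B := ⟨hCls.met, hCls.lo, hCls.bd⟩
  have hM := hCls.met
  obtain ⟨-, hIs, -, hI, -⟩ := hGIN d G hM
  refine ⟨?_, u11.smooth G hG, hI, hIs, ?_⟩
  · intro u x hu
    have h1 := AHLD_form hM hI hIs u hu x
    have h2 := AHLD_VG hM hI hIs x
    have h3 := AHLD_sw hM x
    have h4 := AHLD_ss hM x
    have h5 : (((dens G x)⁻¹ : ℝ) : ℂ) = AHLD_w G x * AHLD_w G x := by
      rw [Complex.ofReal_inv, h4]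
      have h6 : AHLD_s G x ≠ 0 := left_ne_zero_of_mul_eq_one h3
      have h7 : AHLD_w G x = (AHLD_s G x)⁻¹ := eq_inv_of_mul_eq_one_right h3
      rw [h7, mul_inv]
    show lap G (fun y => u y * AHLD_w G y) x = AHLD_w G x * (AHLD_A G u x - VG G x * u x)
    rw [h1, h2, h5]
    linear_combination (AHLD_w G x * AHLD_A G u x + AHLD_w G x * AHLD_w G x * AHLD_A G (AHLD_s G) x * u x) * h3
  · intro x hx
    have hx' : ‖x‖ ≤ m0 := le_trans hx hm0
    refine ⟨?_, ?_, ?_⟩
    · have h1 := hC5 G hG x hx'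
      rw [norm_iteratedFDeriv_zero, Real.norm_of_nonneg (inv_nonneg.mpr (AHLD_dpos hM x).le)] at h1
      have h2 : (dens G x)⁻¹ ≤ S + |C5| + C6 := by linarith [le_abs_self C5]
      exact (inv_le_comm₀ (AHLD_dpos hM x) (by linarith [abs_nonneg C5])).mp h2
    · intro m hm
      have h1 := hSm m hm
      have a1 := abs_nonneg (C1 m)
      have a2 := abs_nonneg (C2 m)
      have a3 := abs_nonneg (C3 m)
      have a4 := abs_nonneg (C4 m)
      have a5 := abs_nonneg C5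
      refine ⟨?_, ?_, ?_, ?_⟩
      · have := hC1 m G hG x hx'
        linarith [le_abs_self (C1 m)]
      · have := hC2 m G hG x hx'
        linarith [le_abs_self (C2 m)]
      · have := hC3 m G hG x hx'
        linarith [le_abs_self (C3 m)]
      · have := hC4 m G hG x hx'
        linarith [le_abs_self (C4 m)]
    · intro u
      obtain ⟨-, -, -, h1⟩ := hC6 G hM hCls.lo hCls.bd (x, 0) hx'
      obtain ⟨-, -, h2, h3⟩ := h1 u
      have h4 : 0 ≤ ⟪IG G x u, u⟫_ℝ := by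
        have h5 : 0 ≤ C6 * ⟪IG G x u, u⟫_ℝ := le_trans (sq_nonneg _) h2
        exact nonneg_of_mul_nonneg_right h5 (by linarith)
      have h5 : 0 ≤ ‖u‖ ^ 2 := sq_nonneg _
      constructor
      · refine le_trans h2 (mul_le_mul_of_nonneg_right (by linarith [abs_nonneg C5]) h4)
      · refine le_trans h3 (mul_le_mul_of_nonneg_right (by linarith [abs_nonneg C5]) h5)

end

end Pool.Agent.VD
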